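import Pool.Agent.BCS.Stmts3
import Pool.Agent.Helper21_BCS.AVI

/-!
# Squad BCS, row AV3 (MP_fb4904_gt): averages over the torus, fibre metrics which are not diagonal
-/

set_option autoImplicit false

open scoped ContDiff Topology
open Set MeasureTheory
open Pool.Agent.SecondKind (Coord pd inv christoffel ricci)

namespace Pool.Agent.BCS.H50

open Pool.Agent.BCS.H21

theorem met_of_fib {m : ℕ} {k : ℂ → Coord m} (hk : FibM k) (z : ℂ) : Met (k z) where
  smooth := fun i j => (hk.smooth i j).comp (contDiff_const.prodMk contDiff_id)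
  symm := fun t i j => hk.symm z t i j
  pos := fun t v hv => hk.pos z t v hv

theorem av3 (hA : AvdStmt) (hI : IbkStmt) (hC : Ct3Stmt) : Av3Stmt := by
  intro m M φ F k χ α β q hy hq hqi
  obtain ⟨hsm, hdx, hdy, hlap⟩ := hA m χ q hy.hχ hq.ne
  set H : ℂ × (Fin m → ℝ) → ℝ := fun p => χ p.1 p.2 with hHdef
  have hH : ContDiff ℝ ∞ H := hy.hχ.smooth
  set X := lm q χ with hX
  -- slices
  have hchi : ∀ z, Continuous (χ z) := fun z => slice_cont hH z
  have hchis : ∀ z, ContDiff ℝ ∞ (χ z) := fun z =>
    hH.comp (contDiff_const.prodMk contDiff_id)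
  have hdx1 : ∀ t, (dx fun z => χ z t) = fun z => DV 1 H (z, t) := by
    intro t
    funext z
    exact fd_slice hH 1 z t
  have hdy1 : ∀ t, (dy fun z => χ z t) = fun z => DV Complex.I H (z, t) := by
    intro t
    funext z
    exact fd_slice hH Complex.I z t
  have hdx2 : ∀ z t, dx (dx fun z => χ z t) z = DV 1 (DV 1 H) (z, t) := by
    intro z t
    rw [hdx1]
    exact fd_slice (DV_smooth hH 1) 1 z t
  have hdy2 : ∀ z t, dy (dy fun z => χ z t) z = DV Complex.I (DV Complex.I H) (z, t) := by
    intro z t
    rw [hdy1]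
    exact fd_slice (DV_smooth hH Complex.I) Complex.I z t
  have hAc : ∀ z, Continuous fun t => dx (fun z => χ z t) z := by
    intro z
    have : (fun t => dx (fun z => χ z t) z) = fun t => DV 1 H (z, t) := by
      funext t
      rw [hdx1]
    rw [this]
    exact slice_cont (DV_smooth hH 1) z
  have hBc : ∀ z, Continuous fun t => dy (fun z => χ z t) z := by
    intro z
    have : (fun t => dy (fun z => χ z t) z) = fun t => DV Complex.I H (z, t) := by
      funext t
      rw [hdy1]
    rw [this]
    exact slice_cont (DV_smooth hH Complex.I) z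
  have hLc : ∀ z, Continuous fun t => lap (fun z => χ z t) z := by
    intro z
    have : (fun t => lap (fun z => χ z t) z) = fun t => DV 1 (DV 1 H) (z, t) +
        DV Complex.I (DV Complex.I H) (z, t) := by
      funext t
      unfold lap
      rw [hdx2, hdy2]
    rw [this]
    exact (slice_cont (DV_smooth (DV_smooth hH 1) 1) z).add
      (slice_cont (DV_smooth (DV_smooth hH Complex.I) Complex.I) z)
  -- the weight
  have hwc : ∀ z, Continuous fun t => Real.exp (q * χ z t) := fun z =>
    Real.continuous_exp.comp (continuous_const.mul (hchi z))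
  have hw0 : ∀ z, ∀ t, 0 ≤ Real.exp (q * χ z t) := fun z t => (Real.exp_pos _).le
  have hwp : ∀ z, 0 < tI (fun t => Real.exp (q * χ z t)) := fun z =>
    tI_exp_pos (continuous_const.mul (hchi z))
  -- derivatives
  have e1 : ∀ (c : ℝ) (u : ℂ → ℝ), ContDiff ℝ ∞ u → ∀ v z,
      D v (fun z => u z + c * X z) z = D v u z + c * D v X z := fun c u hu v z => by
    rw [D_lin hu hsm]
  have e3 : ∀ (c : ℝ) (u : ℂ → ℝ), ContDiff ℝ ∞ u → ∀ v z,
      D v (D v (fun z => u z + c * X z)) z = D v (D v u) z + c * D v (D v X) z :=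
    fun c u hu v z => by rw [D_lin hu hsm, D_lin (D_smooth hu v) (D_smooth hsm v)]
  have l1 : ∀ (c : ℝ) (u : ℂ → ℝ), ContDiff ℝ ∞ u → ∀ z,
      lap (fun z => u z + c * X z) z = lap u z + c * lap X z := by
    intro c u hu z
    have h1 := e3 c u hu 1 z
    have h2 := e3 c u hu Complex.I z
    change D 1 (D 1 (fun z => u z + c * X z)) z + D Complex.I (D Complex.I (fun z => u z + c * X z)) z =
      (D 1 (D 1 u) z + D Complex.I (D Complex.I u) z) +
        c * (D 1 (D 1 X) z + D Complex.I (D Complex.I X) z)
    rw [h1, h2]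
    ring
  have lg : ∀ (c : ℝ) (u : ℂ → ℝ), ContDiff ℝ ∞ u → ∀ z,
      grad2 (fun z => u z + c * X z) z = (dx u z + c * dx X z) ^ 2 + (dy u z + c * dy X z) ^ 2 := by
    intro c u hu z
    have h1 := e1 c u hu 1 z
    have h2 := e1 c u hu Complex.I z
    have h3 : grad2 (fun z => u z + c * X z) z = D 1 (fun z => u z + c * X z) z ^ 2 +
        D Complex.I (fun z => u z + c * X z) z ^ 2 := rfl
    rw [h3, h1, h2]
    rfl
  have lr : ∀ (c : ℝ) (u : ℂ → ℝ), ContDiff ℝ ∞ u → ∀ z,
      rad (fun z => u z + c * X z) z = rad u z + c * rad X z := by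
    intro c u hu z
    have h1 := e1 c u hu 1 z
    have h2 := e1 c u hu Complex.I z
    change z.re * D 1 (fun z => u z + c * X z) z + z.im * D Complex.I (fun z => u z + c * X z) z =
      (z.re * D 1 u z + z.im * D Complex.I u z) + c * (z.re * D 1 X z + z.im * D Complex.I X z)
    rw [h1, h2]
    ring
  have hmpos : (0 : ℝ) < m := by
    have := hy.hm
    exact_mod_cast this
  refine ⟨?_, ?_⟩
  · intro z hz
    set w : (Fin m → ℝ) → ℝ := fun t => Real.exp (q * χ z t) with hw
    obtain ⟨hSc, hLM, hGM, hG0⟩ := hC m (k z) (χ z) (met_of_fib hy.hk z) (hchis z)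
    let P : (Fin m → ℝ) → ℝ := fun t => Real.exp (2 * (α - β) * χ z t) *
      (scal (k z) t - 2 * kap3 m α β * lapM (k z) (χ z) t - lam3 m α β * gip (k z) (χ z) (χ z) t)
    have hPc : Continuous P :=
      (Real.continuous_exp.comp (continuous_const.mul (hchi z))).mul
        ((hSc.sub (continuous_const.mul hLM)).sub (continuous_const.mul hGM))
    have hGc : Continuous fun t => grad2 (fun z => χ z t) z :=
      ((hAc z).pow 2).add ((hBc z).pow 2)
    set κ : ℝ := ((m : ℝ) + 1) / m with hκdef
    set b : ℝ := m * β with hb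
    -- the scalar curvature
    have hscal : ∀ t, sc3 φ F k χ α β z t =
        (-2 * lap φ z - 2 * lap F z - κ * (dx F z ^ 2 + dy F z ^ 2)) +
        ((-2 * (α + b)) * lap (fun z => χ z t) z + ((-(2 * κ * b * dx F z)) *
          dx (fun z => χ z t) z + ((-(2 * κ * b * dy F z)) * dy (fun z => χ z t) z +
          ((-(κ * b ^ 2)) * grad2 (fun z => χ z t) z + Real.exp (2 * φ z) * P t)))) := by
      intro t
      unfold sc3 grad2
      have h1 : Real.exp (2 * φ z + 2 * (α - β) * χ z t) =
          Real.exp (2 * φ z) * Real.exp (2 * (α - β) * χ z t) := Real.exp_add _ _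
      simp only [P]
      rw [h1]
      simp only [← hκdef, ← hb]
      ring
    -- means
    have hEA : Ev w (fun t => dx (fun z => χ z t) z) = dx X z := (hdx z).symm
    have hEB : Ev w (fun t => dy (fun z => χ z t) z) = dy X z := (hdy z).symm
    set EG : ℝ := Ev w (fun t => grad2 (fun z => χ z t) z) with hEG
    have hEL : Ev w (fun t => lap (fun z => χ z t) z) =
        lap X z - q * (EG - (dx X z ^ 2 + dy X z ^ 2)) := by
      have := hlap z
      have h2 : mn q χ (fun z t => lap (fun z => χ z t) z) z =
        Ev w (fun t => lap (fun z => χ z t) z) := rfl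
      have h3 : mn q χ (fun z t => grad2 (fun z => χ z t) z) z = EG := rfl
      have h4 : grad2 X z = dx X z ^ 2 + dy X z ^ 2 := rfl
      rw [h2, h3, h4] at this
      linarith
    have hV : dx X z ^ 2 + dy X z ^ 2 ≤ EG := by
      have h1 := Ev_var (hwc z) (hw0 z) (hwp z) (hAc z)
      have h2 := Ev_var (hwc z) (hw0 z) (hwp z) (hBc z)
      have h3 : EG = Ev w (fun t => dx (fun z => χ z t) z ^ 2) +
          Ev w (fun t => dy (fun z => χ z t) z ^ 2) :=
        Ev_add (hwc z) ((hAc z).pow 2) ((hBc z).pow 2)
      rw [h3]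
      rw [← hEA, ← hEB]
      exact add_le_add h1 h2
    have hEP : Ev w P ≤ 0 := by
      refine div_nonpos_of_nonpos_of_nonneg ?_ (hwp z).le
      set r : ℝ := q + 2 * (α - β) with hr
      have hrc : Continuous fun t => Real.exp (r * χ z t) :=
        Real.continuous_exp.comp (continuous_const.mul (hchi z))
      have hc0 : Continuous fun t => Real.exp (r * χ z t) * scal (k z) t := hrc.mul hSc
      have hc1 : Continuous fun t => Real.exp (r * χ z t) * lapM (k z) (χ z) t := hrc.mul hLM
      have hc2 : Continuous fun t => Real.exp (r * χ z t) * gip (k z) (χ z) (χ z) t := hrc.mul hGM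
      have h1 : (fun t => w t * P t) = fun t =>
          (Real.exp (r * χ z t) * scal (k z) t) +
          ((-(2 * kap3 m α β)) * (Real.exp (r * χ z t) * lapM (k z) (χ z) t) +
          (-lam3 m α β) * (Real.exp (r * χ z t) * gip (k z) (χ z) (χ z) t)) := by
        funext t
        have h2 : Real.exp (r * χ z t) = Real.exp (q * χ z t) *
            Real.exp (2 * (α - β) * χ z t) := by
          rw [← Real.exp_add, hr]
          congr 1
          ring
        simp only [P, hw]
        rw [h2]
        ring
      have hc3 : Continuous fun t =>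
          (-(2 * kap3 m α β)) * (Real.exp (r * χ z t) * lapM (k z) (χ z) t) +
          (-lam3 m α β) * (Real.exp (r * χ z t) * gip (k z) (χ z) (χ z) t) :=
        (continuous_const.mul hc1).add (continuous_const.mul hc2)
      rw [h1, tI_add hc0 hc3,
        tI_lin2 _ _ hc1 hc2,
        hI m (k z) (Real.exp (2 * F z)) (χ z) r (met_of_fib hy.hk z) (fun t l => hy.hk.per z t l)
          (fun t => hy.hdet z t) (hchis z) (fun t l => hy.hχ.per z t l)]
      have h3 : 0 ≤ tI (fun t => Real.exp (r * χ z t) * gip (k z) (χ z) (χ z) t) :=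
        tI_nonneg fun t => mul_nonneg (Real.exp_pos _).le (hG0 t)
      have h30 : tI (fun t => Real.exp (r * χ z t) * scal (k z) t) ≤ 0 := by
        have h31 : 0 ≤ tI (fun t => (-1) * (Real.exp (r * χ z t) * scal (k z) t)) :=
          tI_nonneg fun t => by
            have := mul_nonneg (Real.exp_pos (r * χ z t)).le (neg_nonneg.2 (hy.hneg z hz t))
            linarith
        rw [tI_mul] at h31
        linarith
      have h4 : 0 ≤ lam3 m α β - 2 * kap3 m α β * r := by
        have h6 := hy.hκ
        have h7 : 2 * r ≤ 2 * α + ((m : ℝ) - 3) * β := by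
          rw [hr]
          linarith
        have h8 : kap3 m α β * (2 * r) ≤ kap3 m α β * (2 * α + ((m : ℝ) - 3) * β) :=
          mul_le_mul_of_nonneg_left h7 h6
        have h9 : lam3 m α β - kap3 m α β * (2 * α + ((m : ℝ) - 3) * β) =
            2 * α ^ 2 + ((m : ℝ) - 1) * β ^ 2 := by
          unfold lam3 kap3
          ring
        have h10 : (1 : ℝ) ≤ m := by exact_mod_cast hy.hm
        have h11 : 0 ≤ 2 * α ^ 2 + ((m : ℝ) - 1) * β ^ 2 :=
          add_nonneg (by positivity) (mul_nonneg (by linarith) (sq_nonneg _))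
        linarith
      have h12 := mul_nonneg h4 h3
      linarith
    -- the mean of the scalar curvature
    have hPc' : Continuous fun t => Real.exp (2 * φ z) * P t := continuous_const.mul hPc
    have hE : Ev w (fun t => sc3 φ F k χ α β z t) =
        (-2 * lap φ z - 2 * lap F z - κ * (dx F z ^ 2 + dy F z ^ 2)) +
        ((-2 * (α + b)) * (lap X z - q * (EG - (dx X z ^ 2 + dy X z ^ 2))) +
          ((-(2 * κ * b * dx F z)) * dx X z + ((-(2 * κ * b * dy F z)) * dy X z +
          ((-(κ * b ^ 2)) * EG + Real.exp (2 * φ z) * Ev w P)))) := by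
      have h1 : (fun t => sc3 φ F k χ α β z t) = fun t => _ := funext hscal
      rw [h1, Ev_lin5 (hwc z) (hwp z) _ _ _ _ _ (hLc z) (hAc z) (hBc z) hGc hPc', hEL, hEA, hEB,
        Ev_mul]
    have hscc : Continuous fun t => sc3 φ F k χ α β z t := by
      have h1 : (fun t => sc3 φ F k χ α β z t) = fun t => _ := funext hscal
      rw [h1]
      exact continuous_const.add ((continuous_const.mul (hLc z)).add
        ((continuous_const.mul (hAc z)).add ((continuous_const.mul (hBc z)).add
          ((continuous_const.mul hGc).add hPc'))))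
    have hexc : Continuous fun t => Real.exp (2 * α * χ z t) :=
      Real.continuous_exp.comp (continuous_const.mul (hchi z))
    have hmean : 0 ≤ Ev w (fun t => sc3 φ F k χ α β z t) + ((m : ℝ) + 2) * (m + 1) *
        Real.exp (2 * φ z) * Ev w (fun t => Real.exp (2 * α * χ z t)) := by
      rw [← Ev_mul, ← Ev_add (g := fun t => ((m : ℝ) + 2) * (m + 1) * Real.exp (2 * φ z) *
        Real.exp (2 * α * χ z t)) (hwc z) hscc (continuous_const.mul hexc)]
      refine Ev_nonneg (hw0 z) fun t => ?_
      have h1 := hy.hsc z hz t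
      rw [Real.exp_add] at h1
      linarith
    have hEe : mn q χ (fun z t => Real.exp (2 * α * χ z t)) z =
        Ev w (fun t => Real.exp (2 * α * χ z t)) := rfl
    rw [hE] at hmean
    rw [hEe, l1 α φ hy.hφ z, l1 b F hy.hF z, lg b F hy.hF z]
    have hκ2 : ((m : ℝ) + 1) / (2 * m) = κ / 2 := by
      rw [hκdef]
      field_simp
    rw [hκ2]
    have hκ0 : 0 ≤ κ := by
      rw [hκdef]
      positivity
    have c4 : 0 ≤ (α + b) * (-q) * (EG - (dx X z ^ 2 + dy X z ^ 2)) :=
      mul_nonneg (mul_nonneg hy.hαβ (by linarith)) (by linarith)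
    have c5 : 0 ≤ (κ * b ^ 2) * (EG - (dx X z ^ 2 + dy X z ^ 2)) :=
      mul_nonneg (mul_nonneg hκ0 (sq_nonneg _)) (by linarith)
    have c6 : Real.exp (2 * φ z) * Ev w P ≤ 0 :=
      mul_nonpos_of_nonneg_of_nonpos (Real.exp_pos _).le hEP
    nlinarith [c4, c5, c6, hmean]
  · intro z hz
    set w : (Fin m → ℝ) → ℝ := fun t => Real.exp (q * χ z t) with hw
    have hEA : Ev w (fun t => dx (fun z => χ z t) z) = dx X z := (hdx z).symm
    have hEB : Ev w (fun t => dy (fun z => χ z t) z) = dy X z := (hdy z).symm
    have hexc : Continuous fun t => Real.exp (α * χ z t) :=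
      Real.continuous_exp.comp (continuous_const.mul (hchi z))
    have hradc : Continuous fun t => rad (fun z => χ z t) z :=
      (continuous_const.mul (hAc z)).add (continuous_const.mul (hBc z))
    have hErad : Ev w (fun t => rad (fun z => χ z t) z) = rad X z := by
      have h1 : (fun t => rad (fun z => χ z t) z) = fun t => z.re * dx (fun z => χ z t) z +
          z.im * dy (fun z => χ z t) z := rfl
      rw [h1, Ev_add (f := fun t => z.re * dx (fun z => χ z t) z)
        (g := fun t => z.im * dy (fun z => χ z t) z) (hwc z) (continuous_const.mul (hAc z))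
        (continuous_const.mul (hBc z)), Ev_mul, Ev_mul, hEA, hEB]
      rfl
    have hmean : 0 ≤ (1 + rad φ z + rad F z) + ((α + m * β) * rad X z +
        (-(M * Real.exp (φ z))) * Ev w (fun t => Real.exp (α * χ z t))) := by
      rw [← hErad, ← Ev_lin2 (hwc z) (hwp z) _ _ _ hradc hexc]
      refine Ev_nonneg (hw0 z) fun t => ?_
      have h2 := hy.hbd z hz t
      rw [Real.exp_add] at h2
      linarith
    have hEe : mn q χ (fun z t => Real.exp (α * χ z t)) z =
        Ev w (fun t => Real.exp (α * χ z t)) := rfl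
    rw [hEe, lr α φ hy.hφ z, lr (m * β) F hy.hF z]
    linarith

end Pool.Agent.BCS.H50
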